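import Mathlib
import Pool.Agent.H528R3.GmcK

/-!
# MP_6ad96e_pr: the logarithm of the total mass of Gaussian multiplicative chaos need not be
infinitely divisible

In every dimension `d ≥ 1` and for every sufficiently small intermittency parameter `μ > 0` there
is an admissible kernel `g` such that, with the ball of radius `4` and the weight `1`, the logarithm
of the total mass is not infinitely divisible. The kernel is
`g x = (1/2) log (1 + 1/|x|^2) + A cos x_1` with `A` of order `1/μ`.

All the definitions of the statement are in `Pool/Agent/H528R3/GmcDefs.lean` (and `sumLaw` in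
`Pool/Agent/H528R3/GmcA.lean`).
-/

set_option autoImplicit false

namespace Pool.Agent.Results.MP_6ad96e_pr.LogMassNotInfDiv

open MeasureTheory Pool.Agent.H528R3.Gmc

/-- In every dimension `d ≥ 1` there is `μ₀ > 0` such that for every `0 < μ < μ₀` one has
`μ < 2d` and there is an admissible kernel `g` for which the following holds: for every bump
function `θ`, every limit law `ρ` (as `ε → 0`) of the regularised total masses
`∫_D e^{ω_{μ,ε}(x)} dx` of the ball `D` of radius `4` is such that the law of the logarithm of the
total mass is not infinitely divisible. -/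
theorem result (d : ℕ) (hd : 1 ≤ d) :
    ∃ μ₀ : ℝ, 0 < μ₀ ∧ ∀ μ : ℝ, 0 < μ → μ < μ₀ → μ < 2 * d ∧
      ∃ g : Sp d → ℝ, Admissible g ∧
        ∀ θ : Sp d → ℝ, Bump θ → ∀ ρ : ProbabilityMeasure ℝ,
          IsLimitLaw g θ μ (Metric.closedBall 0 4) (fun _ => 1) ρ →
          ¬ InfDiv ((ρ : Measure ℝ).map Real.log) :=
  main d hd

end Pool.Agent.Results.MP_6ad96e_pr.LogMassNotInfDiv
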